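import Pool.Agent.H79.BN.Targets2

open MeasureTheory Set Filter Topology Pool.Agent.H93.BL Pool.Agent.H79.BN

namespace Pool.Agent.H7.BN

theorem cr_mul_im (a b : ℂ) : cr a b = ((starRingEnd ℂ) a * b).im := by
  simp [cr, Complex.mul_im]; ring

theorem cr_self (a : ℂ) : cr a a = 0 := by
  simp [cr]; ring

theorem cr_add_right (a b c : ℂ) : cr a (b + c) = cr a b + cr a c := by
  simp [cr]; ring

theorem cr_neg_left (a b : ℂ) : cr (-a) b = - cr a b := by
  simp [cr]; ring

theorem cr_smul (r s : ℝ) (a b : ℂ) : cr ((r : ℂ) * a) ((s : ℂ) * b) = r * s * cr a b := by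
  simp [cr]; ring

theorem cr_exp (u : ℂ) (hu : ‖u‖ = 1) (x y : ℝ) :
    cr (u * Complex.exp ((x : ℂ) * Complex.I)) (u * Complex.exp ((y : ℂ) * Complex.I)) =
      Real.sin (y - x) := by
  have h1 : u.re * u.re + u.im * u.im = 1 := by
    have := Complex.normSq_eq_norm_sq u
    rw [hu, Complex.normSq_apply] at this
    linarith
  rw [Complex.exp_mul_I, Complex.exp_mul_I]
  simp only [cr, Complex.mul_re, Complex.mul_im, Complex.add_re, Complex.add_im,
    Complex.cos_ofReal_re, Complex.cos_ofReal_im, Complex.sin_ofReal_re, Complex.sin_ofReal_im,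
    Complex.I_re, Complex.I_im]
  rw [Real.sin_sub]
  linear_combination (Real.sin y * Real.cos x - Real.cos y * Real.sin x) * h1

theorem repr_angle (e z : ℂ) (he : e ≠ 0) (hz : z ≠ 0) (h : 0 ≤ cr e z) :
    z = (‖z‖ : ℂ) * (e / (‖e‖ : ℂ) * Complex.exp ((InnerProductGeometry.angle e z : ℂ) * Complex.I)) := by
  have h1 : InnerProductGeometry.angle e z = (z / e).arg := by
    rw [InnerProductGeometry.angle_comm, Complex.angle_eq_abs_arg hz he, abs_of_nonneg]
    rw [Complex.arg_nonneg_iff]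
    have h2 : (z / e).im = cr e z / Complex.normSq e := by
      rw [Complex.div_im, cr]; ring
    rw [h2]
    exact div_nonneg h (Complex.normSq_nonneg e)
  have h3 := Complex.norm_mul_exp_arg_mul_I (z / e)
  rw [h1]
  have he' : (‖e‖ : ℂ) ≠ 0 := by simpa using he
  rw [norm_div, Complex.ofReal_div] at h3
  have h4 : z = e * (z / e) := by field_simp
  calc z = e * (z / e) := h4
    _ = e * ((‖z‖ : ℂ) / (‖e‖ : ℂ) * Complex.exp (((z / e).arg : ℂ) * Complex.I)) := by rw [h3]
    _ = _ := by field_simp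

theorem angle_exp (u : ℂ) (hu : ‖u‖ = 1) (r s ph th : ℝ) (hr : 0 < r) (hs : 0 < s)
    (h1 : 0 ≤ ph - th) (h2 : ph - th ≤ Real.pi) :
    InnerProductGeometry.angle ((r : ℂ) * (u * Complex.exp ((ph : ℂ) * Complex.I)))
      ((s : ℂ) * (u * Complex.exp ((th : ℂ) * Complex.I))) = ph - th := by
  have hu0 : u ≠ 0 := by
    intro h; rw [h] at hu; simp at hu
  have hr' : (r : ℂ) ≠ 0 := by exact_mod_cast hr.ne'
  have hs' : (s : ℂ) ≠ 0 := by exact_mod_cast hs.ne'
  have e1 := Complex.exp_ne_zero ((ph : ℂ) * Complex.I)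
  have e2 := Complex.exp_ne_zero ((th : ℂ) * Complex.I)
  rw [Complex.angle_eq_abs_arg (mul_ne_zero hr' (mul_ne_zero hu0 e1))
    (mul_ne_zero hs' (mul_ne_zero hu0 e2))]
  have h3 : (r : ℂ) * (u * Complex.exp ((ph : ℂ) * Complex.I)) /
      ((s : ℂ) * (u * Complex.exp ((th : ℂ) * Complex.I))) =
      ((r / s : ℝ) : ℂ) * (Complex.cos ((ph - th : ℝ) : ℂ) + Complex.sin ((ph - th : ℝ) : ℂ) * Complex.I) := by
    rw [← Complex.exp_mul_I]
    have : Complex.exp ((ph : ℂ) * Complex.I) =
        Complex.exp (((ph - th : ℝ) : ℂ) * Complex.I) * Complex.exp ((th : ℂ) * Complex.I) := by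
      rw [← Complex.exp_add]; congr 1; push_cast; ring
    rw [this]
    push_cast
    field_simp
  rw [h3, Complex.arg_mul_cos_add_sin_mul_I (div_pos hr hs) ⟨by linarith [Real.pi_pos], h2⟩,
    abs_of_nonneg h1]

theorem f1 (h0 : T_V0) (h1 : T_V1) : T_F1 := by
  intro n _ w hn hw i
  obtain ⟨v1, v2, v3, v4, v5⟩ := h1 n w hn hw
  obtain ⟨a1, a2, a3, a4, a5, a6, a7, a8, a9, a10⟩ := h0 n hn i
  set e := ed w (i + 1) with he
  have he0 : e ≠ 0 := v1 (i + 1)
  have hen : (‖e‖ : ℂ) ≠ 0 := by simpa using he0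
  have hei : e = w (i + 2) - w (i + 1) := by rw [he, ed, a4]
  have hu : ‖dr w i‖ = 1 := by
    rw [dr, ← he, norm_div, Complex.norm_real, norm_norm, div_self]
    simpa using he0
  have hz : ∀ k, k ≠ i + 1 → w k - w (i + 1) ≠ 0 := by
    intro k hk h
    exact hk (v2 _ _ (sub_eq_zero.mp h))
  have hR : ∀ k, angR w i k = InnerProductGeometry.angle e (w k - w (i + 1)) := by
    intro k
    rw [angR, EuclideanGeometry.angle, hei]
    rfl
  have hL : ∀ k, angL w i k = InnerProductGeometry.angle (w i - w (i + 1)) (w k - w (i + 1)) := by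
    intro k
    rw [angL, EuclideanGeometry.angle]
    rfl
  have hph : ang w i = angR w i i := by
    rw [ang, angR, EuclideanGeometry.angle_comm]
  have hrep : ∀ k, k ≠ i + 1 →
      w k - w (i + 1) = (‖w k - w (i + 1)‖ : ℂ) * dx w i (angR w i k) := by
    intro k hk
    rw [hR, dx, dr]
    exact repr_angle e _ he0 (hz k hk) (v4 (i + 1) k)
  have hn0 : ∀ k, 0 ≤ angR w i k := by
    intro k; rw [hR]; exact InnerProductGeometry.angle_nonneg _ _
  have hpi : ∀ k, angR w i k ≤ Real.pi := by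
    intro k; rw [hR]; exact InnerProductGeometry.angle_le_pi _ _
  have he1 : e = (‖e‖ : ℂ) * dx w i 0 := by
    rw [dx, dr, ← he]
    simp
    field_simp
  -- the angle
  have hi : i ≠ i + 1 := fun h => a1 h.symm
  have hi2 : i ≠ i + 1 + 1 := by rw [a4]; exact fun h => a2 h.symm
  have hpos : 0 < cr e (w i - w (i + 1)) := hw (i + 1) i hi hi2
  have hzi : 0 < ‖w i - w (i + 1)‖ := norm_pos_iff.mpr (hz i hi)
  have hsin : 0 < Real.sin (ang w i) := by
    rw [hrep i hi, he1] at hpos
    rw [dx, dx, cr_smul, cr_exp _ hu] at hpos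
    rw [hph]
    rw [sub_zero] at hpos
    by_contra hcon
    push Not at hcon
    have : ‖e‖ * ‖w i - w (i + 1)‖ * Real.sin (angR w i i) ≤ 0 :=
      mul_nonpos_of_nonneg_of_nonpos (by positivity) hcon
    linarith
  have hph0 : 0 < ang w i := by
    rcases (hn0 i).lt_or_eq with h | h
    · rw [hph]; exact h
    · rw [hph, ← h, Real.sin_zero] at hsin
      exact absurd hsin (lt_irrefl _)
  have hphpi : ang w i < Real.pi := by
    rcases (hpi i).lt_or_eq with h | h
    · rw [hph]; exact h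
    · rw [hph, h, Real.sin_pi] at hsin
      exact absurd hsin (lt_irrefl _)
  have hedi : ed w i = -(w i - w (i + 1)) := by rw [ed]; ring
  have hedn : ‖ed w i‖ = ‖w i - w (i + 1)‖ := by rw [hedi, norm_neg]
  refine ⟨hph0, hphpi, hu, he1, ?_, ?_⟩
  · rw [hedn, hph, ← hrep i hi, hedi]
  intro k hk
  have hzk : 0 < ‖w k - w (i + 1)‖ := norm_pos_iff.mpr (hz k hk)
  have hle : angR w i k ≤ ang w i := by
    by_contra hcon
    push Not at hcon
    have h5 : 0 ≤ cr (ed w i) (w k - w (i + 1)) := by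
      have h6 := v4 i k
      have h7 : w k - w i = (w k - w (i + 1)) + ed w i := by rw [ed]; ring
      rw [h7, cr_add_right, cr_self, add_zero] at h6
      exact h6
    rw [hedi, cr_neg_left, hrep i hi, hrep k hk, dx, dx, cr_smul, cr_exp _ hu, ← hph] at h5
    have h8 : 0 < Real.sin (angR w i k - ang w i) :=
      Real.sin_pos_of_pos_of_lt_pi (by linarith) (by linarith [hpi k])
    have : 0 < ‖w i - w (i + 1)‖ * ‖w k - w (i + 1)‖ * Real.sin (angR w i k - ang w i) := by
      positivity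
    linarith
  have hLk : angL w i k = ang w i - angR w i k := by
    rw [hL, hrep i hi, hrep k hk, dx, dx, ← hph]
    exact angle_exp _ hu _ _ _ _ hzi hzk (by linarith) (by linarith [hn0 k])
  refine ⟨hn0 k, by rw [hLk]; ring, by rw [hLk]; linarith, hrep k hk⟩

end Pool.Agent.H7.BN
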