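import Pool.Agent.H7.BN.F1

open MeasureTheory Set Filter Topology Pool.Agent.H93.BL Pool.Agent.H79.BN

namespace Pool.Agent.H7.BN

theorem rf_exp (u : ℂ) (hu : ‖u‖ = 1) (r ph x : ℝ) :
    rf ((r : ℂ) * (u * Complex.exp ((ph : ℂ) * Complex.I))) (u * Complex.exp ((x : ℂ) * Complex.I))
      = ((r ^ 2 : ℝ) : ℂ) * (u * Complex.exp (((2 * ph - x : ℝ) : ℂ) * Complex.I)) := by
  have h1 : u * (starRingEnd ℂ) u = 1 := by
    rw [Complex.mul_conj, Complex.normSq_eq_norm_sq, hu]; norm_num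
  have h2 : (starRingEnd ℂ) (Complex.exp ((x : ℂ) * Complex.I)) =
      Complex.exp (((-x : ℝ) : ℂ) * Complex.I) := by
    rw [← Complex.exp_conj, map_mul, Complex.conj_ofReal, Complex.conj_I]
    congr 1
    push_cast
    ring
  have h3 : Complex.exp (((2 * ph - x : ℝ) : ℂ) * Complex.I) =
      Complex.exp ((ph : ℂ) * Complex.I) ^ 2 * Complex.exp (((-x : ℝ) : ℂ) * Complex.I) := by
    rw [← Complex.exp_nat_mul, ← Complex.exp_add]
    congr 1
    push_cast
    ring
  rw [rf, map_mul, h2, h3]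
  push_cast
  linear_combination ((r : ℂ) ^ 2 * u * Complex.exp ((ph : ℂ) * Complex.I) ^ 2 *
    Complex.exp (-(x : ℂ) * Complex.I)) * h1

theorem rf_neg_left (e v : ℂ) : rf (-e) v = rf e v := by
  simp [rf]

theorem f2 (h1 : T_V1) (hf1 : T_F1) : T_F2 := by
  intro n _ w hn hw i x y
  obtain ⟨v1, v2, v3, v4, v5⟩ := h1 n w hn hw
  obtain ⟨hph0, hphpi, hu, he1, hei, hk⟩ := hf1 n w hn hw i
  have A1 : ∀ x y, cr (dx w i x) (dx w i y) = Real.sin (y - x) := by
    intro x y; rw [dx, dx]; exact cr_exp _ hu x y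
  have one_mul' : ∀ z : ℂ, z = ((1 : ℝ) : ℂ) * z := by intro z; simp
  have A2 : ∀ x, cr (ed w (i + 1)) (dx w i x) = ‖ed w (i + 1)‖ * Real.sin x := by
    intro x
    have h := cr_smul_left (‖ed w (i + 1)‖) (dx w i 0) (dx w i x)
    rw [← he1, A1, sub_zero] at h
    exact h
  have A3 : ∀ x, cr (ed w i) (dx w i x) = ‖ed w i‖ * Real.sin (ang w i - x) := by
    intro x
    have h := cr_smul_left (‖ed w i‖) (dx w i (ang w i)) (dx w i x)
    have h2 := cr_neg_left ((‖ed w i‖ : ℂ) * dx w i (ang w i)) (dx w i x)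
    rw [← hei, h, A1] at h2
    rw [h2, ← neg_sub x (ang w i), Real.sin_neg]
    ring
  have A4 : rf (ed w (i + 1)) (dx w i x) = ((‖ed w (i + 1)‖ ^ 2 : ℝ) : ℂ) * dx w i (-x) := by
    have h := rf_exp (dr w i) hu (‖ed w (i + 1)‖) 0 x
    have h2 : (‖ed w (i + 1)‖ : ℂ) * (dr w i * Complex.exp (((0 : ℝ) : ℂ) * Complex.I)) =
        ed w (i + 1) := by
      rw [← dx]; exact he1.symm
    rw [h2] at h
    rw [dx, dx, h]
    congr 4
    push_cast
    ring
  have A5 : rf (ed w i) (dx w i x) = ((‖ed w i‖ ^ 2 : ℝ) : ℂ) * dx w i (2 * ang w i - x) := by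
    have h := rf_exp (dr w i) hu (‖ed w i‖) (ang w i) x
    have h2 : (‖ed w i‖ : ℂ) * (dr w i * Complex.exp ((ang w i : ℂ) * Complex.I)) =
        - ed w i := by
      rw [← dx]; rw [eq_neg_iff_add_eq_zero, add_comm, ← eq_neg_iff_add_eq_zero]; exact hei
    rw [h2, rf_neg_left] at h
    rw [dx, dx, h]
  have A6 : dx w i (x + 2 * Real.pi) = dx w i x := by
    rw [dx, dx]
    congr 1
    push_cast
    rw [add_mul, Complex.exp_add, Complex.exp_two_pi_mul_I, mul_one]
  have A7 : dx w i (x + Real.pi) = -dx w i x := by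
    rw [dx, dx]
    push_cast
    rw [add_mul, Complex.exp_add, Complex.exp_pi_mul_I]
    ring
  refine ⟨A1 x y, A2 x, A3 x, A4, A5, A6, A7, ?_⟩
  intro d hd hd1 hd2
  have hdr : dr w i ≠ 0 := by
    intro h; rw [h] at hu; simp at hu
  set t := (-d / dr w i).arg with ht
  have hrep : -d = (‖d‖ : ℂ) * dx w i t := by
    have h := Complex.norm_mul_exp_arg_mul_I (-d / dr w i)
    rw [← ht, norm_div, norm_neg, hu, div_one] at h
    rw [dx]
    calc -d = dr w i * (-d / dr w i) := by field_simp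
      _ = dr w i * ((‖d‖ : ℂ) * Complex.exp ((t : ℂ) * Complex.I)) := by rw [h]
      _ = _ := by ring
  have hdpos : 0 < ‖d‖ := norm_pos_iff.mpr hd
  have hdd : d = -((‖d‖ : ℂ) * dx w i t) := by rw [← hrep]; ring
  have hs1 : 0 ≤ Real.sin t := by
    have h := cr_smul_right (‖d‖) (ed w (i + 1)) (dx w i t)
    rw [← hrep, cr_neg_right, A2] at h
    have hp : 0 < ‖ed w (i + 1)‖ := norm_pos_iff.mpr (v1 _)
    by_contra hcon
    push Not at hcon
    have : ‖d‖ * (‖ed w (i + 1)‖ * Real.sin t) < 0 :=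
      mul_neg_of_pos_of_neg hdpos (mul_neg_of_pos_of_neg hp hcon)
    linarith
  have hs2 : 0 ≤ Real.sin (ang w i - t) := by
    have h := cr_smul_right (‖d‖) (ed w i) (dx w i t)
    rw [← hrep, cr_neg_right, A3] at h
    have hp : 0 < ‖ed w i‖ := norm_pos_iff.mpr (v1 _)
    by_contra hcon
    push Not at hcon
    have : ‖d‖ * (‖ed w i‖ * Real.sin (ang w i - t)) < 0 :=
      mul_neg_of_pos_of_neg hdpos (mul_neg_of_pos_of_neg hp hcon)
    linarith
  have ht1 : -Real.pi < t := Complex.neg_pi_lt_arg _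
  have ht2 : t ≤ Real.pi := Complex.arg_le_pi _
  have ht0 : 0 ≤ t := by
    by_contra hcon
    push Not at hcon
    have := Real.sin_neg_of_neg_of_neg_pi_lt hcon ht1
    linarith
  have ht3 : t ≤ ang w i := by
    by_contra hcon
    push Not at hcon
    have := Real.sin_neg_of_neg_of_neg_pi_lt (x := ang w i - t) (by linarith) (by linarith)
    linarith
  exact ⟨‖d‖, t, hdpos, ht0, ht3, hdd⟩

end Pool.Agent.H7.BN
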